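import Pool.Agent.Y184.SP.Parts
import Pool.Agent.Y184.SP.Asm4
import Pool.Agent.Y184.SP.MvpP
import Pool.Agent.Y248.SP2.Scale
import Pool.Agent.Y248.SP2.TorSph
import Pool.Agent.Y429.SP.Sub
import Pool.Agent.Y375.SP.Not1

/-!
# A nef and big class on a surface without semipositive currents with `C¹` potentials

There are a compact Kähler surface `Y` and a nef and big class `α` in `H^{1,1}(Y, ℝ)` such that no
closed semipositive `(1,1)`-current in `α` has local potentials of class `C¹`; in particular no smooth
closed `(1,1)`-form in `α` is semipositive. This answers the question (for smooth forms) in the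
negative, in the stronger form for `C¹` potentials.

The surface: `B = ℂ / ℤ[i]`, and `Y` is the blow-up of `B × ℙ¹` at the point `(0, 0)` and at the
infinitely near point which is the direction of `y = x`. With the fibre class `F`, the class `S` of
the sections `y = const` and the classes `ε₁`, `ε₂` of the exceptional curves (total transforms),
`α = F + 3 S - ε₁ - ε₂`. It is orthogonal to the strict transform `C` of `y = 0` (an elliptic curve
with `C² = -1`) and to the strict transform `E` of the first exceptional curve (`E² = -2`), which
meet in one point. A potential of a semipositive current of class `C¹` in the class is constant on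
`C ∪ E` (relative to the flat metrics), and its normal derivatives along `C` and `E` would be
holomorphic and would give an elliptic function with one simple pole; there is no obstruction on each
of the curves.

A smooth closed real `(1,1)`-form is given by its local potentials (`SP.Form`); its value on the
tangent vector of a holomorphic disc is the Laplacian of the potential along the disc (`Form.val`).
-/

set_option autoImplicit false

open Set Topology Filter
open scoped ContDiff Manifold

namespace Pool.Agent.Results.MP_4ff127_gt.NoC1SemipositiveCurrent

open Pool.Agent.Y184.SP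

/-- There are a compact connected complex surface `Y`, a Kähler form `Ω` on `Y` and a smooth closed
real `(1,1)`-form `α` whose class is nef and big, such that

* for no function `u` of class `C¹` on `Y` the current `α + dd^c u` is semipositive (i.e. the functions
  `α.pot p + u` are not all plurisubharmonic), and
* no smooth closed real `(1,1)`-form in the class of `α` is semipositive. -/
theorem result :
    ∃ (Y : Type) (_ : TopologicalSpace Y) (_ : ChartedSpace (ℂ × ℂ) Y),
      IsManifold 𝓘(ℂ, ℂ × ℂ) ω Y ∧ CompactSpace Y ∧ ConnectedSpace Y ∧ T2Space Y ∧
      ∃ Ω α : Form Y, Ω.IsKahler ∧ Nef Ω α ∧ Big Ω α ∧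
        (∀ u : Y → ℝ, ContMDiff 𝓘(ℝ, ℂ × ℂ) 𝓘(ℝ, ℝ) 1 u →
          ¬ ∀ p, PshAt (fun q => α.pot p q + u q) p) ∧
        ∀ θ : Form Y, θ.Cohomologous α → ¬ θ.Semipositive :=
  Asm.main1 Parts.hG Parts.hPhi Parts.hPsi Parts.hNef Parts.hBig Parts.hNot Parts.hPt Parts.hCpt
    Parts.hLev Parts.hReg Parts.hMan Parts.hVal Parts.hExt Parts.hPos
    (Pool.Agent.Y375.SP.C1.t1 Mv.mvp Pool.Agent.Y248.SP2.scale Pool.Agent.Y248.SP2.tor
      Pool.Agent.Y248.SP2.sph Pool.Agent.Y625.SP.res)
    (Pool.Agent.Y429.SP.sub Parts.hPt Parts.hLev)

end Pool.Agent.Results.MP_4ff127_gt.NoC1SemipositiveCurrent
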